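import Pool.Agent.helper36.PT.Spec

/-!
# Project PT, row FMO: the first moments, exact
-/

set_option autoImplicit false

namespace Pool.Agent.PT

open Finset Pool.Agent.helper71.AA

theorem FMO_pr_ge {D : Finset ℕ} (h : ∀ l ∈ D, 2 ≤ l) : 1 ≤ pr D := by
  unfold pr
  have : ∏ l ∈ D, (1 : ℝ) ≤ ∏ l ∈ D, (l : ℝ) := by
    refine prod_le_prod (fun _ _ => zero_le_one) fun l hl => ?_
    have := h l hl
    exact_mod_cast (by omega : 1 ≤ l)
  rwa [prod_const_one] at this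

theorem FMO_pr_union {D L : Finset ℕ} (hD : ∀ l ∈ D, 2 ≤ l) (hL : ∀ l ∈ L, 2 ≤ l) :
    pr (D ∪ L) ≤ pr D * pr L := by
  have h1 : pr (D ∪ L) * pr (D ∩ L) = pr D * pr L := prod_union_inter
  have h2 : 1 ≤ pr (D ∩ L) := FMO_pr_ge fun l hl => hD l (mem_inter.1 hl).1
  have h3 : 1 ≤ pr (D ∪ L) := FMO_pr_ge fun l hl => by
    rcases mem_union.1 hl with h | h
    · exact hD l h
    · exact hL l h
  rw [← h1]
  nlinarith

theorem FMO_pr_split {Q₁ Q₂ D : Finset ℕ} (hd : Disjoint Q₁ Q₂) (hD : D ⊆ Q₁ ∪ Q₂) :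
    pr D = pr (D ∩ Q₁) * pr (D ∩ Q₂) := by
  unfold pr
  rw [← prod_union (hd.mono inter_subset_right inter_subset_right), ← inter_union_distrib_left,
    inter_eq_left.2 hD]

theorem FMO_qs {w Z l : ℕ} (h : l ∈ Qs w Z) : l.Prime ∧ w < l ∧ l ≤ Z := by
  unfold Qs at h
  rw [mem_filter, mem_Ioc] at h
  exact ⟨h.2, h.1.1, h.1.2⟩

theorem FMO (h1 : CEX_stmt) (h2 : MEA_stmt) (h3 : CFW_stmt) (h4 : FAC_stmt) (h5 : LRG_stmt)
    (h6 : GPR_stmt) : FMO_stmt := by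
  intro w hw η hη hη1
  obtain ⟨X₁, hX₁⟩ := h3 w (by omega) η hη hη1
  refine ⟨max (max X₁ 1) (max ((primorial w : ℝ) ^ 10) ((w : ℝ) ^ (1 / η))), ?_⟩
  intro X hX p hp hwp hpX a₀ ξ hξ
  simp only [max_le_iff] at hX
  obtain ⟨⟨hXa, hXb⟩, hXc, hXd⟩ := hX
  have hX0 : 0 < X := by linarith
  have hW1 : (1 : ℝ) ≤ (primorial w : ℝ) := by exact_mod_cast primorial_pos w
  -- the two sets of primes
  set Q₁ := Qm w X η with hQ₁
  set Q₂ := Ql X η with hQ₂
  have hwX : w ≤ ⌊X ^ η⌋₊ := by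
    apply Nat.le_floor
    have e1 : ((w : ℝ) ^ (1 / η)) ^ η ≤ X ^ η :=
      Real.rpow_le_rpow (by positivity) hXd hη.le
    rwa [← Real.rpow_mul (Nat.cast_nonneg w), one_div_mul_cancel hη.ne', Real.rpow_one] at e1
  have hm1 : ∀ l ∈ Q₁, l.Prime ∧ w < l ∧ l ≤ ⌊X ^ η⌋₊ := fun l hl => FMO_qs hl
  have hm2 : ∀ l ∈ Q₂, l.Prime ∧ ⌊X ^ η⌋₊ < l ∧ l ≤ ⌊X ^ (0.47 : ℝ)⌋₊ := fun l hl => FMO_qs hl
  have hdis : Disjoint Q₁ Q₂ := by
    rw [disjoint_left]
    intro l ha hb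
    have := (hm1 l ha).2.2
    have := (hm2 l hb).2.1
    omega
  have hQ : ∀ l ∈ Q₁ ∪ Q₂, l.Prime ∧ w < l := by
    intro l hl
    rcases mem_union.1 hl with h | h
    · exact ⟨(hm1 l h).1, (hm1 l h).2.1⟩
    · exact ⟨(hm2 l h).1, lt_of_le_of_lt hwX (hm2 l h).2.1⟩
  have hQ2 : ∀ l ∈ Q₁ ∪ Q₂, 2 ≤ l := fun l hl => (hQ l hl).1.two_le
  obtain ⟨θ, hθ1, hθ2, hθ3, hθ4, hθ5⟩ := hX₁ X hXa ξ hξ p
  -- the bound for the moduli
  have hWX : (primorial w : ℝ) ≤ X ^ (0.1 : ℝ) := by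
    have e1 : (((primorial w : ℝ)) ^ 10) ^ (0.1 : ℝ) ≤ X ^ (0.1 : ℝ) :=
      Real.rpow_le_rpow (by positivity) hXc (by norm_num)
    rwa [← Real.rpow_natCast, ← Real.rpow_mul (by positivity), show (((10 : ℕ) : ℝ) * 0.1) = 1 by norm_num,
      Real.rpow_one] at e1
  have hlev : ∀ L : Finset ℕ, (∀ l ∈ L, 2 ≤ l) → pr L ≤ X ^ (0.1 : ℝ) →
      ∀ D ⊆ (Q₁ ∪ Q₂).erase p, xp w X η ξ θ p D ≠ 0 → (primorial w : ℝ) * pr (D ∪ L) ≤ 2 * X := by
    intro L hL hLX D hD hne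
    have hD2 : ∀ l ∈ D, 2 ≤ l := fun l hl => hQ2 l (mem_of_mem_erase (hD hl))
    have e1 := hθ4.le D hne
    have e2 : pr (D ∪ L) ≤ X ^ (0.5531 : ℝ) * X ^ (0.1 : ℝ) :=
      (FMO_pr_union hD2 hL).trans (mul_le_mul e1 hLX (by linarith [FMO_pr_ge hL]) (by positivity))
    calc (primorial w : ℝ) * pr (D ∪ L) ≤ X ^ (0.1 : ℝ) * (X ^ (0.5531 : ℝ) * X ^ (0.1 : ℝ)) :=
          mul_le_mul hWX e2 (by
            have := FMO_pr_ge (D := D ∪ L) (fun l hl => by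
              rcases mem_union.1 hl with h | h
              · exact hD2 l h
              · exact hL l h)
            linarith) (by positivity)
      _ = X ^ (0.7531 : ℝ) := by
          rw [← Real.rpow_add hX0, ← Real.rpow_add hX0]
          norm_num
      _ ≤ X ^ (1 : ℝ) := Real.rpow_le_rpow_of_exponent_le hXb (by norm_num)
      _ = X := Real.rpow_one X
      _ ≤ 2 * X := by linarith
  have h2X : (2 : ℝ) ≤ 2 * X := by linarith
  have hfw : fw w X η ξ p = fun a => Fp w X η ξ p (Az (Q₁ ∪ Q₂) p a) := funext hθ5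
  have hxp : ∀ D ⊆ (Q₁ ∪ Q₂).erase p, xp w X η ξ θ p D = θ (D ∩ Q₁) * ξ (D ∩ Q₂) := by
    intro D hD
    unfold xp
    rw [if_pos hD]
  have hQ1e : ∀ l ∈ Q₁.erase p, 2 ≤ l := fun l hl => hQ2 l (mem_union_left _ (mem_of_mem_erase hl))
  constructor
  · have e1 := h2 w a₀ (2 * X) (Q₁ ∪ Q₂) p (Fp w X η ξ p) (xp w X η ξ θ p) ∅ h2X hQ hp hθ3
      (empty_subset _) (hlev ∅ (by simp) (by
        unfold pr
        rw [prod_empty]
        exact Real.one_le_rpow hXb (by norm_num)))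
    have e2 : EN (primorial w) a₀ (2 * X) (fw w X η ξ p) =
        EN (primorial w) a₀ (2 * X) (fun a => if ∅ ⊆ Az (Q₁ ∪ Q₂) p a then
          Fp w X η ξ p (Az (Q₁ ∪ Q₂) p a) else 0) := by
      rw [hfw]
      refine congrArg (EN (primorial w) a₀ (2 * X)) (funext fun a => ?_)
      rw [if_pos (empty_subset _)]
    rw [e2, e1]
    congr 1
    have e3 : ∑ D ∈ ((Q₁ ∪ Q₂).erase p).powerset, xp w X η ξ θ p D / pr (D ∪ ∅) =
        ∑ D ∈ ((Q₁ ∪ Q₂).erase p).powerset, θ (D ∩ Q₁) * ξ (D ∩ Q₂) / pr D := by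
      refine sum_congr rfl fun D hD => ?_
      rw [hxp D (mem_powerset.1 hD), union_empty]
    rw [e3, (h4 Q₁ Q₂ hdis hQ2 p p θ θ ξ ξ).1]
    congr 1
    have e4 := Rep_Ex (Q₁.erase p) hQ1e _ θ hθ1 ∅ (empty_subset _)
    simp only [union_empty] at e4
    rw [← e4]
    have e5 : Ex (Q₁.erase p) (fun A => if ∅ ⊆ A then Sg (Q₁.erase p) (Rr X) A ^ 2 else 0) =
        Ex (Q₁.erase p) (fun A => Sg (Q₁.erase p) (Rr X) A ^ 2) := by
      refine Ex_congr _ _ _ fun A _ => ?_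
      rw [if_pos (empty_subset _)]
    rw [e5]
    exact Ex_Sg_empty (Q₁.erase p) hQ1e (Rr X)
  · intro g hg
    have hg1 : g ∈ Q₁ := mem_of_mem_erase hg
    have hg2 : g ∈ (Q₁ ∪ Q₂).erase p := mem_erase.2 ⟨(mem_erase.1 hg).1, mem_union_left _ hg1⟩
    have hgX : (g : ℝ) ≤ X ^ (0.1 : ℝ) := by
      have e1 : (g : ℝ) ≤ ((⌊X ^ η⌋₊ : ℕ) : ℝ) := by exact_mod_cast (hm1 g hg1).2.2
      refine e1.trans ((Nat.floor_le (by positivity)).trans ?_)
      refine Real.rpow_le_rpow_of_exponent_le hXb ?_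
      norm_num at hη1 ⊢
      exact hη1
    have e1 := h2 w a₀ (2 * X) (Q₁ ∪ Q₂) p (Fp w X η ξ p) (xp w X η ξ θ p) {g} h2X hQ hp hθ3
      (singleton_subset_iff.2 hg2) (hlev {g} (by
        intro l hl
        rw [mem_singleton] at hl
        subst hl
        exact (hm1 l hg1).1.two_le) (by
        unfold pr
        rw [prod_singleton]
        exact hgX))
    have e2 : EN (primorial w) a₀ (2 * X)
        (fun a => if g ∈ Az (Qm w X η) p a then fw w X η ξ p a else 0) =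
        EN (primorial w) a₀ (2 * X) (fun a => if {g} ⊆ Az (Q₁ ∪ Q₂) p a then
          Fp w X η ξ p (Az (Q₁ ∪ Q₂) p a) else 0) := by
      congr 1
      funext a
      rw [hfw]
      have e3 : g ∈ Az (Qm w X η) p a ↔ {g} ⊆ Az (Q₁ ∪ Q₂) p a := by
        rw [singleton_subset_iff]
        unfold Az
        rw [mem_filter, mem_filter, mem_union]
        constructor
        · rintro ⟨_, h⟩
          exact ⟨Or.inl hg1, h⟩
        · rintro ⟨_, h⟩
          exact ⟨hg1, h⟩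
      simp only [e3]
    rw [e2, e1]
    congr 1
    set θ' : Finset ℕ → ℝ := fun D => θ D / pr (D ∪ {g}) * pr D with hθ'
    have e3 : ∑ D ∈ ((Q₁ ∪ Q₂).erase p).powerset, xp w X η ξ θ p D / pr (D ∪ {g}) =
        ∑ D ∈ ((Q₁ ∪ Q₂).erase p).powerset, θ' (D ∩ Q₁) * ξ (D ∩ Q₂) / pr D := by
      refine sum_congr rfl fun D hD => ?_
      rw [mem_powerset] at hD
      rw [hxp D hD]
      have hD' : D ⊆ Q₁ ∪ Q₂ := hD.trans (erase_subset _ _)
      have e4 : pr D = pr (D ∩ Q₁) * pr (D ∩ Q₂) := FMO_pr_split hdis hD'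
      have e5 : pr (D ∪ {g}) = pr (D ∩ Q₁ ∪ {g}) * pr (D ∩ Q₂) := by
        have e6 := FMO_pr_split hdis (D := D ∪ {g})
          (union_subset hD' (singleton_subset_iff.2 (mem_union_left _ hg1)))
        have e7 : (D ∪ {g}) ∩ Q₁ = D ∩ Q₁ ∪ {g} := by
          rw [union_inter_distrib_right]
          congr 1
          exact inter_eq_left.2 (singleton_subset_iff.2 hg1)
        have e8 : (D ∪ {g}) ∩ Q₂ = D ∩ Q₂ := by
          rw [union_inter_distrib_right]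
          have : ({g} : Finset ℕ) ∩ Q₂ = ∅ := by
            rw [← disjoint_iff_inter_eq_empty, disjoint_singleton_left]
            exact fun h => (disjoint_left.1 hdis) hg1 h
          rw [this, union_empty]
        rwa [e7, e8] at e6
      have p1 : 0 < pr (D ∩ Q₁) := lt_of_lt_of_le one_pos (FMO_pr_ge fun l hl =>
        hQ2 l (hD' (mem_inter.1 hl).1))
      have p2 : 0 < pr (D ∩ Q₂) := lt_of_lt_of_le one_pos (FMO_pr_ge fun l hl =>
        hQ2 l (hD' (mem_inter.1 hl).1))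
      have p3 : 0 < pr (D ∩ Q₁ ∪ {g}) := lt_of_lt_of_le one_pos (FMO_pr_ge fun l hl => by
        rcases mem_union.1 hl with h | h
        · exact hQ2 l (hD' (mem_inter.1 h).1)
        · rw [mem_singleton] at h
          subst h
          exact (hm1 l hg1).1.two_le)
      rw [e5, e4, hθ']
      simp only
      field_simp
    rw [e3, (h4 Q₁ Q₂ hdis hQ2 p p θ' θ' ξ ξ).1]
    congr 1
    have e4 := Rep_Ex (Q₁.erase p) hQ1e _ θ hθ1 {g} (singleton_subset_iff.2 hg)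
    simp only [singleton_subset_iff] at e4
    rw [e4]
    refine sum_congr rfl fun D hD => ?_
    have p1 : 0 < pr D := lt_of_lt_of_le one_pos (FMO_pr_ge fun l hl =>
      hQ1e l ((mem_powerset.1 hD) hl))
    rw [hθ']
    simp only
    field_simp

end Pool.Agent.PT
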